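import Mathlib
import Pool.Agent.R932.FP.Grp

/-!
# The motivic Tate conjecture from finitely many Frobenius polynomials at one prime number

Let `M = A ⊕ M_1 ⊕ ... ⊕ M_r` be a motive for absolute Hodge cycles over a field `k` which is finitely generated
over `ℚ`, where `A` is an Artin motive and `M_i` is pure of the weight `w_i`, of the rank `N_i`, with the
nondegenerate form `J_i : M_i ⊗ M_i → 1(-w_i)` given by a polarization; `J_i` is alternating, or symmetric, and in
the second case we suppose that `w_i = 0` (after a Tate twist) and `N_i ≥ 5`, `N_i ≠ 6`. We choose rational bases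
of the Betti realizations, and so by Artin's comparison isomorphism bases of the `ℓ`-adic realizations for all
`ℓ`. The motivic Galois group `𝒢_k(M)` is given by polynomials with rational coefficients in the entries of the
matrices (`G` below), and we use the following two properties (`IsMotivicGroup`):
* its complex points `(x_1, ..., x_r, a)` satisfy `IsComponentwise`: they multiply the forms `J_i` by `t ^ w_i` for
  some `t ∈ ℂ^×`, and there is an element `σ` of the Galois group which acts as `a` on `A` and with the same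
  determinant as `x_i` on the symmetric `M_i` (the motives `det M_i` are then Artin motives, and the Galois group
  maps onto the motivic Galois group of an Artin motive);
* it contains the image of the Galois group in the realizations.
Nothing is assumed on the size of `𝒢_k(M)`, on Hodge numbers, or on the images of the Galois group. Let `K` be a
number field: `K = k` if `k` is a number field, and the residue field of a closed point of the generic fibre of
a model of `M` in general; `s : G_K → Γ` is the homomorphism given by this point, where `Γ` is the Galois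
group of `k` or the fundamental group of the model. At the places `v` of good reduction of `K` the Frobenius
polynomials `P_{i,v}` of the `M_i` are rational and independent of `ℓ` (Deligne).

The motivic Tate conjecture at `ℓ` for `M` (the question of Banaszak and Kedlaya, after Serre) is the equality of
the `ℓ`-adic monodromy group (the Zariski closure of the image of the Galois group) and of `𝒢_k(M)` over `ℚ_ℓ`
(`MotivicTateConjecture`); this is an equality of groups with all their components.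

**Theorem.** Suppose that at ONE prime number `ℓ₀` (`ℓ₀ ≠ 2` for alternating forms, `ℓ₀` does not divide
`N_i - 1` for odd `N_i`, and `ℓ₀` does not divide `(N_i - 2)(N_i - 4)` and the valuation of `det J_i` is even for
even `N_i` and symmetric `J_i`) finitely many Frobenius polynomials satisfy the following conditions:
* (`EvenCriterion`, for alternating `J_i`, and for even `N_i`) for every `0 < d < N_i` some `P_{i,v}` is neat
  (distinct roots, no quotient of two different roots is a root of unity) and has no factor of degree `d` over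
  `ℚ_{ℓ₀}`, for example one `P_{i,v}` is neat and irreducible over `ℚ_{ℓ₀}`; some `P_{i,v}` is neat and has a
  root in `ℚ_{ℓ₀}`; some `P_{i,v}` is generic: its roots have no multiplicative relations `x w = y z` besides those
  forced by the form;
* (`OddCriterion`, for symmetric `J_i` of odd rank) `P_{i,v} = (X - ε) A` is neat with `ε = ±1` and `A`
  irreducible over `ℚ_{ℓ₀}`, `P_{i,v'} = (X - η) B`, and `A(1) A(-1) B(1) B(-1)` is not a square in
  `ℚ_{ℓ₀}`; and some `P_{i,v} = (X - 1) A` where `A` has no roots of unity as roots and no roots with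
  `x y = z`;
* for different `i`, `j` some `P_{i,v}` has a root which is multiplicatively independent of `N(v)^{w_i}` and of
  the roots of `P_{j,v}`.
Then
(0) the motivic Galois group consists of ALL points as in the first property above;
(1) the motivic Tate conjecture for `M` is true at `ℓ₀`;
(2) it is true at all prime numbers `ℓ` outside a set of natural density zero;
(3) it is true at EVERY prime number `ℓ` at which the realizations of the `M_i` are semisimple and have no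
endomorphisms besides the scalars over finite extensions of `k`.

In `OnePrimeSuffices` (for this problem) the conjecture at one prime number was a hypothesis; here it is obtained
from finitely many polynomials, together with the size of the motivic Galois group. The same conditions at one
prime number give the Mumford-Tate conjecture (the neutral components) in `FrobeniusPolynomialsAtOnePrime` for
MP_de8692_ag; here the groups with all components are treated, and Artin motives are allowed.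

Idea of the proof. (A) At `ℓ₀` the factors over `ℚ_{ℓ₀}` exclude stable subspaces over all finite extensions
of `k`, also without semisimplicity; a root in `ℚ_{ℓ₀}` gives an eigenvector which shows that the commutant
consists of scalars; the generic polynomial gives the full Lie algebra. For symmetric forms of odd rank
two polynomials and an invariant in `ℚ_{ℓ₀}^× / squares` exclude a stable line and its complement.
(B) Equivariant maps between different factors are excluded by the independent roots. (C) Project PO of this run: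
from the full joint Lie algebra at one prime number to 100 percent of the prime numbers, and to all prime
numbers as in (3). (D) The isometries near `1` are Zariski dense, and the multiplier of some Frobenius element
has infinite order; so the closure of the image of every coset of an open subgroup contains all similitudes of its
component.

The Zariski density was proved in this run by helper391 and helper310; for the helpers of projects OP and PO
see `FourthPowerSuffices` for MP_6c781a. Projects ZO, ZI, ZS, ZD and TF of the starting files are used.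
-/

set_option autoImplicit false

namespace Pool.Agent.Results.MP_bbcdf5_ag.FrobeniusPolynomialsAtOnePrime

open Matrix Polynomial Filter Topology NumberField IsDedekindDomain

noncomputable section

/-- the absolute Galois group of `K`, with its profinite (Krull) topology -/
abbrev AbsoluteGaloisGroup (K : Type) [Field K] : Type := Gal(AlgebraicClosure K/K)

/-- `σ` is an (arithmetic) Frobenius element at the prime `v` of the number field `K`: for some prime
`Q` of the algebraic closure above `v` it acts on the residue field as `x ↦ x ^ N(v)` -/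
def IsFrobenius {K : Type} [Field K] [NumberField K] (v : HeightOneSpectrum (𝓞 K))
    (σ : AbsoluteGaloisGroup K) : Prop :=
  ∃ Q : Ideal (𝓞 (AlgebraicClosure K)), Q.IsMaximal ∧
    Q.comap (algebraMap (𝓞 K) (𝓞 (AlgebraicClosure K))) = v.asIdeal ∧
    ∀ x : 𝓞 (AlgebraicClosure K), σ • x - x ^ Ideal.absNorm v.asIdeal ∈ Q

/-- the form with the rational matrix `J` is nondegenerate, and either alternating of positive rank (and
the weight `w` is arbitrary) or symmetric of rank `N ≥ 5`, `N ≠ 6` (and `w = 0`) -/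
def IsPolarization {N : ℕ} (w : ℕ) (J : Matrix (Fin N) (Fin N) ℚ) : Prop :=
  J.det ≠ 0 ∧ ((Jᵀ = -J ∧ 0 < N) ∨ (Jᵀ = J ∧ 5 ≤ N ∧ N ≠ 6 ∧ w = 0))

/-- the conditions on the prime number `ℓ₀` -/
def IsAllowed (ℓ : ℕ) {N : ℕ} (J : Matrix (Fin N) (Fin N) ℚ) : Prop :=
  (Jᵀ = -J → ℓ ≠ 2) ∧ (Jᵀ = J → Odd N → ¬ ℓ ∣ N - 1) ∧
    (Jᵀ = J → Even N → ¬ ℓ ∣ (N - 2) * (N - 4) ∧ Even (padicValRat ℓ J.det))

/-- `κ` is the inverse of the cyclotomic character: its value at (the image under `s` of) the geometric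
Frobenius elements `σ⁻¹` (`σ` arithmetic) at the places `v ∉ S` prime to `ℓ` is `N(v)` -/
def IsCyclotomic {K : Type} [Field K] [NumberField K] {Γ : Type} [Group Γ]
    (s : AbsoluteGaloisGroup K →* Γ) (ℓ : ℕ) [Fact ℓ.Prime]
    (κ : Γ →* ℚ_[ℓ]) (S : Set (HeightOneSpectrum (𝓞 K))) : Prop :=
  ∀ v ∉ S, (ℓ : 𝓞 K) ∉ v.asIdeal → ∀ σ : AbsoluteGaloisGroup K, IsFrobenius v σ →
    κ (s σ⁻¹) = (Ideal.absNorm v.asIdeal : ℚ_[ℓ])

/-- `ρ` is a continuous representation on `ℚ_ℓ ^ N`, it multiplies the form `J` by the power `κ ^ w`, and for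
the places `v ∉ S` prime to `ℓ` the characteristic polynomial of (the image under `s` of) the geometric
Frobenius elements at `v` is `P v` -/
def IsSystem {K : Type} [Field K] [NumberField K] {Γ : Type} [Group Γ] [TopologicalSpace Γ]
    (s : AbsoluteGaloisGroup K →* Γ) (N w ℓ : ℕ) [Fact ℓ.Prime] (κ : Γ →* ℚ_[ℓ])
    (ρ : Γ →* Matrix (Fin N) (Fin N) ℚ_[ℓ]) (J : Matrix (Fin N) (Fin N) ℚ)
    (S : Set (HeightOneSpectrum (𝓞 K))) (P : HeightOneSpectrum (𝓞 K) → ℚ[X]) : Prop :=
  Continuous ρ ∧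
    (∀ σ, (ρ σ)ᵀ * J.map (algebraMap ℚ ℚ_[ℓ]) * ρ σ = κ σ ^ w • J.map (algebraMap ℚ ℚ_[ℓ])) ∧
    ∀ v ∉ S, (ℓ : 𝓞 K) ∉ v.asIdeal → ∀ σ : AbsoluteGaloisGroup K, IsFrobenius v σ →
      (ρ (s σ⁻¹)).charpoly = (P v).map (algebraMap ℚ ℚ_[ℓ])

/-- the representation on the Artin motive: an open subgroup acts trivially -/
def IsArtin {Γ : Type} [Group Γ] [TopologicalSpace Γ] {m : ℕ}
    (α : Γ →* Matrix (Fin m) (Fin m) ℚ) : Prop :=
  ∃ U : Subgroup Γ, IsOpen (U : Set Γ) ∧ ∀ σ ∈ U, α σ = 1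

/-! ### The conditions on the Frobenius polynomials -/

/-- `P` has distinct roots, and no quotient of two different complex roots is a root of unity -/
def IsNeat (P : ℚ[X]) : Prop :=
  P.Separable ∧ ∀ n : ℕ, 0 < n → ∀ x y : ℂ, aeval x P = 0 → aeval y P = 0 → x ^ n = y ^ n → x = y

/-- the polynomial `P` is neat, no root is a square root of `q`, and for roots `x ≠ y`, `z`, `w` an
equality `x / y = z / w` is only possible if `z = x`, `w = y`, or if `z = q / y` and `w = q / x` -/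
def IsGeneric (q : ℚ) (P : ℚ[X]) : Prop :=
  IsNeat P ∧ (∀ x : ℂ, aeval x P = 0 → x * x ≠ (q : ℂ)) ∧
    ∀ x y z w : ℂ, aeval x P = 0 → aeval y P = 0 → aeval z P = 0 → aeval w P = 0 → x ≠ y →
      x * w = z * y → (z = x ∧ w = y) ∨ (z * y = (q : ℂ) ∧ w * x = (q : ℂ))

/-- a root of `P` is multiplicatively independent of `q` and of the roots of `R` -/
def HasIndependentRoot (q : ℚ) (P R : ℚ[X]) : Prop :=
  ∃ x : ℂˣ, aeval (x : ℂ) P = 0 ∧ ∀ m : ℕ, 0 < m →
    x ^ m ∉ Subgroup.closure {y : ℂˣ | aeval (y : ℂ) R = 0 ∨ (y : ℂ) = (q : ℂ)}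

variable {K : Type} [Field K] [NumberField K]

/-- The criterion for alternating forms and for symmetric forms of even rank (rank `N`, multiplier `q v`): for
every `0 < d < N` some neat `P v` has no factor of degree `d` over `ℚ_ℓ`; some neat `P v` has a root in `ℚ_ℓ`;
some `P v` is generic. -/
def EvenCriterion (S : Set (HeightOneSpectrum (𝓞 K))) (P : HeightOneSpectrum (𝓞 K) → ℚ[X])
    (q : HeightOneSpectrum (𝓞 K) → ℚ) (N ℓ : ℕ) [Fact ℓ.Prime] : Prop :=
  (∀ d, 0 < d → d < N → ∃ v ∉ S, (ℓ : 𝓞 K) ∉ v.asIdeal ∧ IsNeat (P v) ∧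
    ∀ R : ℚ_[ℓ][X], R.Monic → R.natDegree = d → ¬ R ∣ (P v).map (algebraMap ℚ ℚ_[ℓ])) ∧
  (∃ v ∉ S, (ℓ : 𝓞 K) ∉ v.asIdeal ∧ IsNeat (P v) ∧
    ∃ x : ℚ_[ℓ], ((P v).map (algebraMap ℚ ℚ_[ℓ])).eval x = 0) ∧
  ∃ v ∉ S, (ℓ : 𝓞 K) ∉ v.asIdeal ∧ IsGeneric (q v) (P v)

/-- The criterion for symmetric forms of odd rank: for some `v`, `w` the polynomials `P v = (X - ε) A`
(`ε = ±1`, neat) and `P w = (X - η) B` are such that `A` is irreducible over `ℚ_ℓ`, `B(1)` and `B(-1)` are not
zero and `A(1) A(-1) B(1) B(-1)` is not a square in `ℚ_ℓ`; and for some `v` the polynomial is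
`(X - 1) A` where no root of `A` is a root of unity, and the product of two roots of `A` is never a root. -/
def OddCriterion (S : Set (HeightOneSpectrum (𝓞 K))) (P : HeightOneSpectrum (𝓞 K) → ℚ[X])
    (ℓ : ℕ) [Fact ℓ.Prime] : Prop :=
  (∃ v ∉ S, ∃ w ∉ S, (ℓ : 𝓞 K) ∉ v.asIdeal ∧ (ℓ : 𝓞 K) ∉ w.asIdeal ∧ IsNeat (P v) ∧
    ∃ (ε η : ℚ) (A B : ℚ[X]), ε * ε = 1 ∧ P v = (X - C ε) * A ∧ P w = (X - C η) * B ∧
      Irreducible (A.map (algebraMap ℚ ℚ_[ℓ])) ∧ B.eval 1 ≠ 0 ∧ B.eval (-1) ≠ 0 ∧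
      ¬ IsSquare (algebraMap ℚ ℚ_[ℓ] (A.eval 1 * A.eval (-1) * (B.eval 1 * B.eval (-1))))) ∧
  ∃ v ∉ S, (ℓ : 𝓞 K) ∉ v.asIdeal ∧ ∃ A : ℚ[X], P v = (X - 1) * A ∧
    (∀ x : ℂ, aeval x A = 0 → ∀ n : ℕ, 0 < n → x ^ n ≠ 1) ∧
    ∀ x y z : ℂ, aeval x A = 0 → aeval y A = 0 → aeval z A = 0 → x * y ≠ z

/-- the criterion for one piece, with the form `J` of rank `N` and the weight `w` -/
def PieceCriterion (S : Set (HeightOneSpectrum (𝓞 K))) (P : HeightOneSpectrum (𝓞 K) → ℚ[X]) {N : ℕ}
    (w : ℕ) (J : Matrix (Fin N) (Fin N) ℚ) (ℓ : ℕ) [Fact ℓ.Prime] : Prop :=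
  (Jᵀ = -J ∨ Even N → EvenCriterion S P (fun v => (Ideal.absNorm v.asIdeal : ℚ) ^ w) N ℓ) ∧
    (Jᵀ = J ∧ Odd N → OddCriterion S P ℓ)

/-! ### The groups -/

variable {I : Type} {N : I → ℕ} {m : ℕ}

/-- polynomials over `R` in the entries of matrices `x i` (`i ∈ I`) of the sizes `N i` and of a matrix `a` of
the size `m` -/
abbrev EntryPolynomial (R : Type) [Field R] {I : Type} (N : I → ℕ) (m : ℕ) : Type :=
  MvPolynomial ((Σ i, Fin (N i) × Fin (N i)) ⊕ (Fin m × Fin m)) R

/-- the value at matrices with entries in an extension `F` of `R` -/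
def value {R F : Type} [Field R] [Field F] [Algebra R F] (f : EntryPolynomial R N m)
    (x : ∀ i, Matrix (Fin (N i)) (Fin (N i)) F) (a : Matrix (Fin m) (Fin m) F) : F :=
  MvPolynomial.aeval (Sum.elim (fun y => x y.1 y.2.1 y.2.2) fun y => a y.1 y.2) f

/-- `(x, a)` is an `F`-valued point of the algebraic group over `ℚ` given by the rational polynomials in `G` -/
def InGroup {F : Type} [Field F] [Algebra ℚ F] (G : Set (EntryPolynomial ℚ N m))
    (x : ∀ i, Matrix (Fin (N i)) (Fin (N i)) F) (a : Matrix (Fin m) (Fin m) F) : Prop :=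
  (∀ i, (x i).det ≠ 0) ∧ a.det ≠ 0 ∧ ∀ f ∈ G, value f x a = 0

/-- `x` multiplies the forms `J i` by `t ^ w i` for some `t`, and some element `σ` of the Galois group acts by `a` on
the Artin motive and with the determinants `det (x i)` (one or minus one) on the symmetric pieces -/
def IsComponentwise {Γ : Type} [Group Γ] (w : I → ℕ) (J : ∀ i, Matrix (Fin (N i)) (Fin (N i)) ℚ)
    (α : Γ →* Matrix (Fin m) (Fin m) ℚ)
    (ρ : ∀ (i : I) (ℓ : ℕ) [Fact ℓ.Prime], Γ →* Matrix (Fin (N i)) (Fin (N i)) ℚ_[ℓ])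
    (x : ∀ i, Matrix (Fin (N i)) (Fin (N i)) ℂ) (a : Matrix (Fin m) (Fin m) ℂ) : Prop :=
  (∃ t : ℂ, t ≠ 0 ∧ ∀ i, (x i)ᵀ * (J i).map (algebraMap ℚ ℂ) * x i =
    t ^ w i • (J i).map (algebraMap ℚ ℂ)) ∧
  ∃ σ : Γ, a = (α σ).map (algebraMap ℚ ℂ) ∧ ∀ i, (J i)ᵀ = J i → ∀ (ℓ : ℕ) [Fact ℓ.Prime],
    ((x i).det = 1 ↔ (ρ i ℓ σ).det = 1)

/-- The properties of the motivic Galois group. -/
def IsMotivicGroup {Γ : Type} [Group Γ] (w : I → ℕ) (J : ∀ i, Matrix (Fin (N i)) (Fin (N i)) ℚ)
    (ρ : ∀ (i : I) (ℓ : ℕ) [Fact ℓ.Prime], Γ →* Matrix (Fin (N i)) (Fin (N i)) ℚ_[ℓ])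
    (α : Γ →* Matrix (Fin m) (Fin m) ℚ) (G : Set (EntryPolynomial ℚ N m)) : Prop :=
  (∀ (x : ∀ i, Matrix (Fin (N i)) (Fin (N i)) ℂ) (a : Matrix (Fin m) (Fin m) ℂ), InGroup G x a →
    IsComponentwise w J α ρ x a) ∧
  ∀ (ℓ : ℕ) [Fact ℓ.Prime] (σ : Γ),
    InGroup G (fun i => ρ i ℓ σ) ((α σ).map (algebraMap ℚ ℚ_[ℓ]))

/-- `(x, a)` belongs to the `ℓ`-adic monodromy group, that is to the Zariski closure of the image: every
polynomial in the entries, with coefficients in the algebraic closure of `ℚ_ℓ`, which vanishes on the image,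
vanishes at `(x, a)` -/
def InMonodromyGroup {Γ : Type} [Group Γ] {ℓ : ℕ} [Fact ℓ.Prime]
    (ρ : ∀ i, Γ →* Matrix (Fin (N i)) (Fin (N i)) ℚ_[ℓ]) (α : Γ →* Matrix (Fin m) (Fin m) ℚ)
    (x : ∀ i, Matrix (Fin (N i)) (Fin (N i)) (AlgebraicClosure ℚ_[ℓ]))
    (a : Matrix (Fin m) (Fin m) (AlgebraicClosure ℚ_[ℓ])) : Prop :=
  ∀ f : EntryPolynomial (AlgebraicClosure ℚ_[ℓ]) N m,
    (∀ σ, value f (fun i => (ρ i σ).map (algebraMap ℚ_[ℓ] (AlgebraicClosure ℚ_[ℓ])))
      ((α σ).map (algebraMap ℚ (AlgebraicClosure ℚ_[ℓ]))) = 0) → value f x a = 0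

/-- the motivic Tate conjecture: the `ℓ`-adic monodromy group is the group given by `G` -/
def MotivicTateConjecture {Γ : Type} [Group Γ] {ℓ : ℕ} [Fact ℓ.Prime]
    (G : Set (EntryPolynomial ℚ N m))
    (ρ : ∀ i, Γ →* Matrix (Fin (N i)) (Fin (N i)) ℚ_[ℓ]) (α : Γ →* Matrix (Fin m) (Fin m) ℚ) :
    Prop :=
  ∀ (x : ∀ i, Matrix (Fin (N i)) (Fin (N i)) (AlgebraicClosure ℚ_[ℓ]))
    (a : Matrix (Fin m) (Fin m) (AlgebraicClosure ℚ_[ℓ])), (∀ i, (x i).det ≠ 0) → a.det ≠ 0 →
    (InMonodromyGroup ρ α x a ↔ InGroup G x a)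

/-- the representation is semisimple: every stable subspace has a stable complement -/
def IsSemisimple {Γ : Type} [Group Γ] {n : ℕ} {ℓ : ℕ} [Fact ℓ.Prime]
    (ρ : Γ →* Matrix (Fin n) (Fin n) ℚ_[ℓ]) : Prop :=
  ∀ W : Submodule ℚ_[ℓ] (Fin n → ℚ_[ℓ]), (∀ σ, ∀ w ∈ W, ρ σ *ᵥ w ∈ W) →
    ∃ W' : Submodule ℚ_[ℓ] (Fin n → ℚ_[ℓ]), IsCompl W W' ∧ ∀ σ, ∀ w ∈ W', ρ σ *ᵥ w ∈ W'

/-- over open subgroups the representation has no endomorphisms besides the scalars -/
def HasScalarEndomorphisms {Γ : Type} [Group Γ] [TopologicalSpace Γ] {n : ℕ} {ℓ : ℕ}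
    [Fact ℓ.Prime] (ρ : Γ →* Matrix (Fin n) (Fin n) ℚ_[ℓ]) : Prop :=
  ∀ (A : Matrix (Fin n) (Fin n) ℚ_[ℓ]) (U : Subgroup Γ), IsOpen (U : Set Γ) →
    (∀ σ ∈ U, A * ρ σ = ρ σ * A) → ∃ z : ℚ_[ℓ], A = z • (1 : Matrix (Fin n) (Fin n) ℚ_[ℓ])

/-- the set `A` of prime numbers has natural density zero -/
def HasDensityZero (A : Set ℕ) : Prop :=
  Tendsto (fun n : ℕ => (Nat.card {ℓ : ℕ // ℓ ≤ n ∧ ℓ ∈ A} : ℝ) / (Nat.primeCounting n : ℝ))
    atTop (𝓝 0)

/-- **The motivic Tate conjecture for `M = A ⊕ M_1 ⊕ ... ⊕ M_r` from finitely many Frobenius polynomials at one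
prime number.** -/
theorem result (K : Type) [Field K] [NumberField K] (Γ : Type) [Group Γ] [TopologicalSpace Γ]
    [IsTopologicalGroup Γ] [CompactSpace Γ] (s : AbsoluteGaloisGroup K →* Γ) (hs : Continuous s)
    (I : Type) [Fintype I] (N w : I → ℕ) (J : ∀ i, Matrix (Fin (N i)) (Fin (N i)) ℚ)
    (hJ : ∀ i, IsPolarization (w i) (J i))
    (S : Set (HeightOneSpectrum (𝓞 K))) (hS : S.Finite)
    (P : I → HeightOneSpectrum (𝓞 K) → ℚ[X])
    (κ : ∀ (ℓ : ℕ) [Fact ℓ.Prime], Γ →* ℚ_[ℓ])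
    (hκ : ∀ (ℓ : ℕ) [Fact ℓ.Prime], IsCyclotomic s ℓ (κ ℓ) S)
    (ρ : ∀ (i : I) (ℓ : ℕ) [Fact ℓ.Prime], Γ →* Matrix (Fin (N i)) (Fin (N i)) ℚ_[ℓ])
    (hρ : ∀ (i : I) (ℓ : ℕ) [Fact ℓ.Prime], IsSystem s (N i) (w i) ℓ (κ ℓ) (ρ i ℓ) (J i) S (P i))
    (m : ℕ) (α : Γ →* Matrix (Fin m) (Fin m) ℚ) (hα : IsArtin α)
    -- the motivic Galois group
    (G : Set (EntryPolynomial ℚ N m)) (hG : IsMotivicGroup w J ρ α G)
    -- the prime number `ℓ₀`
    (ℓ₀ : ℕ) [Fact ℓ₀.Prime] (hℓ₀ : ∀ i, IsAllowed ℓ₀ (J i))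
    (hone : ∀ i, PieceCriterion S (P i) (w i) (J i) ℓ₀)
    (htwo : ∀ i j, i ≠ j → ∃ v ∉ S, (ℓ₀ : 𝓞 K) ∉ v.asIdeal ∧
      HasIndependentRoot ((Ideal.absNorm v.asIdeal : ℚ) ^ w i) (P i v) (P j v)) :
    (∀ (x : ∀ i, Matrix (Fin (N i)) (Fin (N i)) ℂ) (a : Matrix (Fin m) (Fin m) ℂ),
      InGroup G x a ↔ IsComponentwise w J α ρ x a) ∧
    MotivicTateConjecture G (fun i => ρ i ℓ₀) α ∧
    HasDensityZero {ℓ | ∃ _ : Fact ℓ.Prime, ¬ MotivicTateConjecture G (fun i => ρ i ℓ) α} ∧
    ∀ (ℓ : ℕ) [Fact ℓ.Prime], (∀ i, IsSemisimple (ρ i ℓ)) →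
      (∀ i, HasScalarEndomorphisms (ρ i ℓ)) → MotivicTateConjecture G (fun i => ρ i ℓ) α := by
  classical
  -- the kinds of the forms
  have hkd : ∀ i, ∃ kd : R932.PO.Kind, R932.PO.Fits kd (J i) ∧
      R932.PO.Allows kd (N i) ℓ₀ (R932.PO.JL J ℓ₀ i) ∧
      R932.FP.CondK kd S (P i) (fun v => (Ideal.absNorm v.asIdeal : ℚ) ^ w i) (N i) ℓ₀ := by
    intro i
    rcases (hJ i).2 with ⟨h1, h2⟩ | ⟨h1, h2, h3, -⟩
    · exact ⟨.sym, ⟨h1, h2⟩, (hℓ₀ i).1 h1, (hone i).1 (Or.inl h1)⟩
    · rcases Nat.even_or_odd (N i) with he | ho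
      · have h4 := (hℓ₀ i).2.2 h1 he
        refine ⟨.even, ⟨h1, he, ?_⟩, ⟨h4.1, ?_⟩, (hone i).1 (Or.inr he)⟩
        · obtain ⟨m, hm⟩ := he
          omega
        · have h5 : (R932.PO.JL J ℓ₀ i).det = (((J i).det : ℚ) : ℚ_[ℓ₀]) := by
            show ((J i).map (algebraMap ℚ ℚ_[ℓ₀])).det = _
            rw [← eq_ratCast (algebraMap ℚ ℚ_[ℓ₀]), RingHom.map_det]
            rfl
          show Even (Padic.valuation (R932.PO.JL J ℓ₀ i).det)
          rw [h5, Padic.valuation_ratCast]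
          exact h4.2
      · exact ⟨.odd, ⟨h1, ho, h2⟩, (hℓ₀ i).2.1 h1 ho, (hone i).2 ⟨h1, ho⟩⟩
  choose kd hfit hal hcond using hkd
  have hwJ : ∀ i, (J i)ᵀ = J i → w i = 0 := by
    intro i hi
    rcases (hJ i).2 with ⟨h1, h2⟩ | ⟨-, -, -, h3⟩
    · exfalso
      apply (hJ i).1
      have h3 : J i = 0 := by
        have h4 : J i = -J i := hi.symm.trans h1
        ext p q
        have h5 : J i p q = -J i p q := congrFun (congrFun h4 p) q
        rw [Matrix.zero_apply]
        linarith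
      have : Nonempty (Fin (N i)) := ⟨⟨0, h2⟩⟩
      rw [h3]
      exact det_zero
    · exact h3
  obtain ⟨U, hU, hUα⟩ := hα
  obtain ⟨hG1, hG2⟩ := hG
  have hne : ∀ (x : ∀ i, Matrix (Fin (N i)) (Fin (N i)) ℂ) (a : Matrix (Fin m) (Fin m) ℂ),
      IsComponentwise w J α ρ x a → (∀ i, (x i).det ≠ 0) ∧ a.det ≠ 0 := by
    rintro x a ⟨⟨t, ht, hx⟩, σ, hσ, -⟩
    constructor
    · intro i h0
      have h1 := congrArg Matrix.det (hx i)
      rw [det_mul, h0, mul_zero, det_smul] at h1
      have h2 : ((J i).map (algebraMap ℚ ℂ)).det ≠ 0 := by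
        have h3 : ((J i).map (algebraMap ℚ ℂ)).det = algebraMap ℚ ℂ (J i).det := by
          rw [RingHom.map_det, RingHom.mapMatrix_apply]
        rw [h3]
        exact (_root_.map_ne_zero _).2 (hJ i).1
      exact mul_ne_zero (pow_ne_zero _ (pow_ne_zero _ ht)) h2 h1.symm
    · rw [hσ]
      have h3 : ((α σ).map (algebraMap ℚ ℂ)).det = algebraMap ℚ ℂ (α σ).det := by
        rw [RingHom.map_det, RingHom.mapMatrix_apply]
      rw [h3]
      refine (_root_.map_ne_zero _).2 fun h0 => ?_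
      have h4 : (α σ).det * (α σ⁻¹).det = 1 := by
        rw [← det_mul, ← map_mul, mul_inv_cancel, map_one, det_one]
      rw [h0, zero_mul] at h4
      exact zero_ne_one h4
  -- the two forms of the conjecture
  have hiff : ∀ (ℓ : ℕ) [Fact ℓ.Prime]
      (r : ∀ i, Γ →* Matrix (Fin (N i)) (Fin (N i)) ℚ_[ℓ]) (β : Γ →* Matrix (Fin m) (Fin m) ℚ),
      MotivicTateConjecture G r β ↔ R932.GR.MTateA G r β := by
    intro ℓ _ r β
    refine forall_congr' fun x => forall_congr' fun a => forall_congr' fun hx =>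
      forall_congr' fun ha => iff_congr ?_ ?_
    · refine forall_congr' fun f => ?_
      have h1 : ∀ (y : ∀ i, Matrix (Fin (N i)) (Fin (N i)) (AlgebraicClosure ℚ_[ℓ]))
          (b : Matrix (Fin m) (Fin m) (AlgebraicClosure ℚ_[ℓ])),
          value f y b = R932.GR.eva y b f := by
        intro y b
        show MvPolynomial.aeval _ f = MvPolynomial.eval _ f
        rw [MvPolynomial.aeval_def]
        rfl
      rw [h1]
      refine imp_congr (forall_congr' fun σ => ?_) Iff.rfl
      rw [h1]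
      rfl
    · exact ⟨fun h f hf => h.2.2 f hf, fun h => ⟨hx, ha, fun f hf => h f hf⟩⟩
  have hmain := R932.FP.fp_group (K := K) (P := P) (kd := kd) (w := w) hS hs J hfit
    (fun i => (hJ i).1) hwJ α hU hUα κ (fun ℓ _ v hv hvℓ σ hσ => hκ ℓ v hv hvℓ σ hσ) ρ
    (fun i ℓ _ => (hρ i ℓ).1) (fun i ℓ _ g => (hρ i ℓ).2.1 g)
    (fun i ℓ _ v hv hvℓ σ hσ => (hρ i ℓ).2.2 v hv hvℓ σ hσ) G
    (fun x a hx ha h => hG1 x a ⟨hx, ha, fun f hf => h f hf⟩)
    (fun ℓ _ σ f hf => (hG2 ℓ σ).2.2 f hf) ℓ₀ hal hcond htwo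
  refine ⟨fun x a => ⟨hG1 x a, fun hx => ⟨(hne x a hx).1, (hne x a hx).2,
    fun f hf => hmain.1 x a hx f hf⟩⟩, (hiff ℓ₀ _ _).2 hmain.2.1, ?_, ?_⟩
  · refine Y142.ZI.DensityZero.mono hmain.2.2.1 ?_
    rintro ℓ ⟨hp, hno⟩
    exact ⟨hp, fun h => hno ((hiff ℓ _ _).2 h)⟩
  · intro ℓ _ hss hsc
    exact (hiff ℓ _ _).2 (hmain.2.2.2 ℓ hss hsc)

end

end Pool.Agent.Results.MP_bbcdf5_ag.FrobeniusPolynomialsAtOnePrime
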