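import Mathlib
import Pool.Agent.R932.GR.Art

/-!
# The motivic Tate conjecture: one prime number suffices

Let `M = A ⊕ M_1 ⊕ ... ⊕ M_r` be a motive (of André, or for absolute Hodge cycles) over a field `k` which is
finitely generated over `ℚ`, where `A` is an Artin motive and `M_i` is pure of the weight `w_i`, of the rank `N_i`,
with the nondegenerate form `J_i : M_i ⊗ M_i → 1(-w_i)` given by a polarization, so that `J_i` is alternating, or
symmetric; in the second case we suppose that `w_i = 0` (after a Tate twist) and `N_i ≥ 5`, `N_i ≠ 6`. We choose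
rational bases of the Betti realizations, and so by Artin's comparison isomorphism bases of the `ℓ`-adic
realizations for all prime numbers `ℓ`. The motivic Galois group `𝒢_k(M)` is an algebraic group over `ℚ` in
`GL(A) × ∏ GL(M_i)`; it is given by polynomials with rational coefficients in the entries of the matrices (`G`
below), and we use the following three properties (`IsMotivicGroup`):
* the elements `(x_1, ..., x_r, a)` of `𝒢_k(M)(ℂ)` multiply the forms `J_i` by `t ^ w_i` for some
  `t ∈ ℂ^×` (the action on `1(-1)`);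
* `𝒢_k(M)` is as large as the forms permit, up to finite groups: it contains all `(x_1, ..., x_r, 1)` with
  `x_i` in the group of the isometries of `J_i` of determinant one (`Sp` or `SO`); so for example if the
  Mumford-Tate group is as large as possible (very general members of many families);
* the image of the absolute Galois group of `k` in the realizations is contained in it.
Nothing is assumed on the component group of `𝒢_k(M)`. The Galois group acts on `A` through a finite quotient
by rational matrices `α`, and at the places `v` of good reduction of a number field `K` (the places of `k` if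
`k = K`, and the places of the residue field `K` of a closed point of the generic fibre of a model over which `M`
extends in general; `s : G_K → Γ` is the homomorphism given by this point, where `Γ` is the Galois group of `k`
or the fundamental group of the model) the Frobenius polynomials `P_{i,v}` of the `M_i` are rational and
independent of `ℓ` (Deligne).

The motivic Tate conjecture at `ℓ` for `M` (the question of Banaszak and Kedlaya, after Serre) is the equality of
the `ℓ`-adic monodromy group (the Zariski closure of the image of the Galois group) and of `𝒢_k(M)` over `ℚ_ℓ`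
(`MotivicTateConjecture`).

**Theorem.** Suppose that the motivic Tate conjecture is true for ONE prime number `ℓ₀` (`ℓ₀ ≠ 2` for alternating
forms, `ℓ₀` does not divide `N_i - 1` for odd `N_i`, and `ℓ₀` does not divide `(N_i - 2)(N_i - 4)` and the
valuation of `det J_i` is even for even `N_i` and symmetric `J_i`), for `M` if `k` is a number field, and for
the fibre of `M` at some closed point in general (such points exist if it is true for `M` and `ℓ₀`, by the
argument of Serre and Terasoma). Then
(1) the motivic Tate conjecture for `M` is true for all prime numbers `ℓ` outside a set of natural density zero;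
(2) it is true for EVERY prime number `ℓ` such that the `ℓ`-adic realizations of the `M_i` are semisimple and
have no endomorphisms besides the scalars over the finite extensions of `k` (these are the conjectures of
Grothendieck and Serre and of Tate for the endomorphisms of the single `M_i`).

So the equality of the full groups is obtained, with their component groups and in the presence of Artin
motives; nothing is assumed on homomorphisms between the different `M_i`, or on other tensors, at the primes `ℓ`.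
The known equivalence of the motivic Tate conjecture with the motivic Mumford-Tate conjecture concerns
each single `ℓ`; here the truth at one `ℓ₀` is transported to 100 percent of the primes.

Idea of the proof. (A) The groups `SO` and `Sp` are irreducible varieties (rational parametrization by
products of two Cayley transforms), so by the hypothesis the closure of the image of each subgroup of finite index
contains the product of these groups at `ℓ₀`; the joint Lie algebra of the image (the space of tangent vectors)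
is then stable under conjugation by this product, and so it is the whole Lie algebra. (B) Project PO of this
run (`FourthPowerSuffices` for MP_6c781a): Chebotarev's theorem and `ℓ₀`-adic approximation give
places `v` with the local types which are needed to exclude stable subspaces, and maps between different
factors, at 100 percent of the primes; so the joint Lie algebra is full at 100 percent of the primes, and at
the primes in (2). (C) At these primes the image contains a neighbourhood of `1` in the product of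
the isometry groups, which is Zariski dense in the product of the groups of isometries of determinant one (over the
algebraic closure), and the multiplier of some Frobenius element has infinite order: the closure of the image of each
subgroup of finite index contains all similitudes of the neutral component. (D) The components: the vectors
of the determinants on the symmetric `M_i` (which are `±1`) and of the matrices `α` are the same for the closure
and for the image at `ℓ₀`; by Chebotarev's theorem they occur at Frobenius elements of places prime to `ℓ ℓ₀`,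
where they can be read from rational polynomials; the rational equations of `𝒢_k(M)` transport the
points from `ℓ` to `ℓ₀` (isomorphism of the algebraic closures).

The Cayley parametrization and the Zariski density were proved in this run by helper391 and helper310;
for the helpers of projects OP and PO see `FourthPowerSuffices`. Projects ZO, ZI, ZS, ZD of the starting files
are used.
-/

set_option autoImplicit false

namespace Pool.Agent.Results.MP_bbcdf5_ag.OnePrimeSuffices

open Matrix Polynomial Filter Topology NumberField IsDedekindDomain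

noncomputable section

/-- the absolute Galois group of `K`, with its profinite (Krull) topology -/
abbrev AbsoluteGaloisGroup (K : Type) [Field K] : Type := Gal(AlgebraicClosure K/K)

/-- `σ` is an (arithmetic) Frobenius element at the prime `v` of the number field `K`: for some prime
`Q` of the algebraic closure above `v` it acts on the residue field as `x ↦ x ^ N(v)` -/
def IsFrobenius {K : Type} [Field K] [NumberField K] (v : HeightOneSpectrum (𝓞 K))
    (σ : AbsoluteGaloisGroup K) : Prop :=
  ∃ Q : Ideal (𝓞 (AlgebraicClosure K)), Q.IsMaximal ∧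
    Q.comap (algebraMap (𝓞 K) (𝓞 (AlgebraicClosure K))) = v.asIdeal ∧
    ∀ x : 𝓞 (AlgebraicClosure K), σ • x - x ^ Ideal.absNorm v.asIdeal ∈ Q

/-- the form with the rational matrix `J` is nondegenerate, and either alternating of positive rank (and
the weight `w` is arbitrary) or symmetric of rank `N ≥ 5`, `N ≠ 6` (and `w = 0`) -/
def IsPolarization {N : ℕ} (w : ℕ) (J : Matrix (Fin N) (Fin N) ℚ) : Prop :=
  J.det ≠ 0 ∧ ((Jᵀ = -J ∧ 0 < N) ∨ (Jᵀ = J ∧ 5 ≤ N ∧ N ≠ 6 ∧ w = 0))

/-- the conditions on the prime number `ℓ₀` -/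
def IsAllowed (ℓ : ℕ) {N : ℕ} (J : Matrix (Fin N) (Fin N) ℚ) : Prop :=
  (Jᵀ = -J → ℓ ≠ 2) ∧ (Jᵀ = J → Odd N → ¬ ℓ ∣ N - 1) ∧
    (Jᵀ = J → Even N → ¬ ℓ ∣ (N - 2) * (N - 4) ∧ Even (padicValRat ℓ J.det))

/-- `κ` is the inverse of the cyclotomic character: its value at (the image under `s` of) the geometric
Frobenius elements `σ⁻¹` (`σ` arithmetic) at the places `v ∉ S` prime to `ℓ` is `N(v)` -/
def IsCyclotomic {K : Type} [Field K] [NumberField K] {Γ : Type} [Group Γ]
    (s : AbsoluteGaloisGroup K →* Γ) (ℓ : ℕ) [Fact ℓ.Prime]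
    (κ : Γ →* ℚ_[ℓ]) (S : Set (HeightOneSpectrum (𝓞 K))) : Prop :=
  ∀ v ∉ S, (ℓ : 𝓞 K) ∉ v.asIdeal → ∀ σ : AbsoluteGaloisGroup K, IsFrobenius v σ →
    κ (s σ⁻¹) = (Ideal.absNorm v.asIdeal : ℚ_[ℓ])

/-- `ρ` is a continuous representation on `ℚ_ℓ ^ N`, it multiplies the form `J` by the power `κ ^ w`, and for
the places `v ∉ S` prime to `ℓ` the characteristic polynomial of (the image under `s` of) the geometric
Frobenius elements at `v` is `P v` -/
def IsSystem {K : Type} [Field K] [NumberField K] {Γ : Type} [Group Γ] [TopologicalSpace Γ]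
    (s : AbsoluteGaloisGroup K →* Γ) (N w ℓ : ℕ) [Fact ℓ.Prime] (κ : Γ →* ℚ_[ℓ])
    (ρ : Γ →* Matrix (Fin N) (Fin N) ℚ_[ℓ]) (J : Matrix (Fin N) (Fin N) ℚ)
    (S : Set (HeightOneSpectrum (𝓞 K))) (P : HeightOneSpectrum (𝓞 K) → ℚ[X]) : Prop :=
  Continuous ρ ∧
    (∀ σ, (ρ σ)ᵀ * J.map (algebraMap ℚ ℚ_[ℓ]) * ρ σ = κ σ ^ w • J.map (algebraMap ℚ ℚ_[ℓ])) ∧
    ∀ v ∉ S, (ℓ : 𝓞 K) ∉ v.asIdeal → ∀ σ : AbsoluteGaloisGroup K, IsFrobenius v σ →
      (ρ (s σ⁻¹)).charpoly = (P v).map (algebraMap ℚ ℚ_[ℓ])

/-- the representation on the Artin motive: an open subgroup acts trivially -/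
def IsArtin {Γ : Type} [Group Γ] [TopologicalSpace Γ] {m : ℕ}
    (α : Γ →* Matrix (Fin m) (Fin m) ℚ) : Prop :=
  ∃ U : Subgroup Γ, IsOpen (U : Set Γ) ∧ ∀ σ ∈ U, α σ = 1

variable {I : Type} {N : I → ℕ} {m : ℕ}

/-- polynomials over `R` in the entries of matrices `x i` (`i ∈ I`) of the sizes `N i` and of a matrix `a` of
the size `m` -/
abbrev EntryPolynomial (R : Type) [Field R] {I : Type} (N : I → ℕ) (m : ℕ) : Type :=
  MvPolynomial ((Σ i, Fin (N i) × Fin (N i)) ⊕ (Fin m × Fin m)) R

/-- the value at matrices with entries in an extension `F` of `R` -/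
def value {R F : Type} [Field R] [Field F] [Algebra R F] (f : EntryPolynomial R N m)
    (x : ∀ i, Matrix (Fin (N i)) (Fin (N i)) F) (a : Matrix (Fin m) (Fin m) F) : F :=
  MvPolynomial.aeval (Sum.elim (fun y => x y.1 y.2.1 y.2.2) fun y => a y.1 y.2) f

/-- `(x, a)` is an `F`-valued point of the algebraic group over `ℚ` given by the rational polynomials in `G` -/
def InGroup {F : Type} [Field F] [Algebra ℚ F] (G : Set (EntryPolynomial ℚ N m))
    (x : ∀ i, Matrix (Fin (N i)) (Fin (N i)) F) (a : Matrix (Fin m) (Fin m) F) : Prop :=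
  (∀ i, (x i).det ≠ 0) ∧ a.det ≠ 0 ∧ ∀ f ∈ G, value f x a = 0

/-- The properties of the motivic Galois group: its elements multiply the forms by `t ^ w i`, it contains all
isometries of determinant one, and it contains the images of the Galois group. -/
def IsMotivicGroup {Γ : Type} [Group Γ] (w : I → ℕ) (J : ∀ i, Matrix (Fin (N i)) (Fin (N i)) ℚ)
    (ρ : ∀ (i : I) (ℓ : ℕ) [Fact ℓ.Prime], Γ →* Matrix (Fin (N i)) (Fin (N i)) ℚ_[ℓ])
    (α : Γ →* Matrix (Fin m) (Fin m) ℚ) (G : Set (EntryPolynomial ℚ N m)) : Prop :=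
  (∀ (x : ∀ i, Matrix (Fin (N i)) (Fin (N i)) ℂ) (a : Matrix (Fin m) (Fin m) ℂ), InGroup G x a →
    ∃ t : ℂ, t ≠ 0 ∧ ∀ i, (x i)ᵀ * (J i).map (algebraMap ℚ ℂ) * x i =
      t ^ w i • (J i).map (algebraMap ℚ ℂ)) ∧
  (∀ x : ∀ i, Matrix (Fin (N i)) (Fin (N i)) ℂ,
    (∀ i, (x i)ᵀ * (J i).map (algebraMap ℚ ℂ) * x i = (J i).map (algebraMap ℚ ℂ)) →
    (∀ i, (x i).det = 1) → InGroup G x (1 : Matrix (Fin m) (Fin m) ℂ)) ∧
  ∀ (ℓ : ℕ) [Fact ℓ.Prime] (σ : Γ),
    InGroup G (fun i => ρ i ℓ σ) ((α σ).map (algebraMap ℚ ℚ_[ℓ]))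

/-- `(x, a)` belongs to the `ℓ`-adic monodromy group, that is to the Zariski closure of the image: every
polynomial in the entries, with coefficients in the algebraic closure of `ℚ_ℓ`, which vanishes on the image,
vanishes at `(x, a)` -/
def InMonodromyGroup {Γ : Type} [Group Γ] {ℓ : ℕ} [Fact ℓ.Prime]
    (ρ : ∀ i, Γ →* Matrix (Fin (N i)) (Fin (N i)) ℚ_[ℓ]) (α : Γ →* Matrix (Fin m) (Fin m) ℚ)
    (x : ∀ i, Matrix (Fin (N i)) (Fin (N i)) (AlgebraicClosure ℚ_[ℓ]))
    (a : Matrix (Fin m) (Fin m) (AlgebraicClosure ℚ_[ℓ])) : Prop :=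
  ∀ f : EntryPolynomial (AlgebraicClosure ℚ_[ℓ]) N m,
    (∀ σ, value f (fun i => (ρ i σ).map (algebraMap ℚ_[ℓ] (AlgebraicClosure ℚ_[ℓ])))
      ((α σ).map (algebraMap ℚ (AlgebraicClosure ℚ_[ℓ]))) = 0) → value f x a = 0

/-- the motivic Tate conjecture: the `ℓ`-adic monodromy group is the group given by `G` -/
def MotivicTateConjecture {Γ : Type} [Group Γ] {ℓ : ℕ} [Fact ℓ.Prime]
    (G : Set (EntryPolynomial ℚ N m))
    (ρ : ∀ i, Γ →* Matrix (Fin (N i)) (Fin (N i)) ℚ_[ℓ]) (α : Γ →* Matrix (Fin m) (Fin m) ℚ) :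
    Prop :=
  ∀ (x : ∀ i, Matrix (Fin (N i)) (Fin (N i)) (AlgebraicClosure ℚ_[ℓ]))
    (a : Matrix (Fin m) (Fin m) (AlgebraicClosure ℚ_[ℓ])), (∀ i, (x i).det ≠ 0) → a.det ≠ 0 →
    (InMonodromyGroup ρ α x a ↔ InGroup G x a)

/-- the representation is semisimple: every stable subspace has a stable complement -/
def IsSemisimple {Γ : Type} [Group Γ] {n : ℕ} {ℓ : ℕ} [Fact ℓ.Prime]
    (ρ : Γ →* Matrix (Fin n) (Fin n) ℚ_[ℓ]) : Prop :=
  ∀ W : Submodule ℚ_[ℓ] (Fin n → ℚ_[ℓ]), (∀ σ, ∀ w ∈ W, ρ σ *ᵥ w ∈ W) →
    ∃ W' : Submodule ℚ_[ℓ] (Fin n → ℚ_[ℓ]), IsCompl W W' ∧ ∀ σ, ∀ w ∈ W', ρ σ *ᵥ w ∈ W'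

/-- over open subgroups the representation has no endomorphisms besides the scalars -/
def HasScalarEndomorphisms {Γ : Type} [Group Γ] [TopologicalSpace Γ] {n : ℕ} {ℓ : ℕ}
    [Fact ℓ.Prime] (ρ : Γ →* Matrix (Fin n) (Fin n) ℚ_[ℓ]) : Prop :=
  ∀ (A : Matrix (Fin n) (Fin n) ℚ_[ℓ]) (U : Subgroup Γ), IsOpen (U : Set Γ) →
    (∀ σ ∈ U, A * ρ σ = ρ σ * A) → ∃ z : ℚ_[ℓ], A = z • (1 : Matrix (Fin n) (Fin n) ℚ_[ℓ])

/-- the set `A` of prime numbers has natural density zero -/
def HasDensityZero (A : Set ℕ) : Prop :=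
  Tendsto (fun n : ℕ => (Nat.card {ℓ : ℕ // ℓ ≤ n ∧ ℓ ∈ A} : ℝ) / (Nat.primeCounting n : ℝ))
    atTop (𝓝 0)

/-- **The motivic Tate conjecture for `M = A ⊕ M_1 ⊕ ... ⊕ M_r` at one prime number implies it at 100 percent of the
prime numbers, and at every prime number at which the `M_i` are semisimple with scalar endomorphisms.** -/
theorem result (K : Type) [Field K] [NumberField K] (Γ : Type) [Group Γ] [TopologicalSpace Γ]
    [IsTopologicalGroup Γ] [CompactSpace Γ] (s : AbsoluteGaloisGroup K →* Γ) (hs : Continuous s)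
    (I : Type) [Fintype I] (N w : I → ℕ) (J : ∀ i, Matrix (Fin (N i)) (Fin (N i)) ℚ)
    (hJ : ∀ i, IsPolarization (w i) (J i))
    (S : Set (HeightOneSpectrum (𝓞 K))) (hS : S.Finite)
    (P : I → HeightOneSpectrum (𝓞 K) → ℚ[X])
    (κ : ∀ (ℓ : ℕ) [Fact ℓ.Prime], Γ →* ℚ_[ℓ])
    (hκ : ∀ (ℓ : ℕ) [Fact ℓ.Prime], IsCyclotomic s ℓ (κ ℓ) S)
    (ρ : ∀ (i : I) (ℓ : ℕ) [Fact ℓ.Prime], Γ →* Matrix (Fin (N i)) (Fin (N i)) ℚ_[ℓ])
    (hρ : ∀ (i : I) (ℓ : ℕ) [Fact ℓ.Prime], IsSystem s (N i) (w i) ℓ (κ ℓ) (ρ i ℓ) (J i) S (P i))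
    (m : ℕ) (α : Γ →* Matrix (Fin m) (Fin m) ℚ) (hα : IsArtin α)
    -- the motivic Galois group
    (G : Set (EntryPolynomial ℚ N m)) (hG : IsMotivicGroup w J ρ α G)
    -- the prime number `ℓ₀`
    (ℓ₀ : ℕ) [Fact ℓ₀.Prime] (hℓ₀ : ∀ i, IsAllowed ℓ₀ (J i))
    (hone : MotivicTateConjecture G (fun i => (ρ i ℓ₀).comp s) (α.comp s)) :
    HasDensityZero {ℓ | ∃ _ : Fact ℓ.Prime, ¬ MotivicTateConjecture G (fun i => ρ i ℓ) α} ∧
    ∀ (ℓ : ℕ) [Fact ℓ.Prime], (∀ i, IsSemisimple (ρ i ℓ)) →
      (∀ i, HasScalarEndomorphisms (ρ i ℓ)) → MotivicTateConjecture G (fun i => ρ i ℓ) α := by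
  classical
  -- the kinds of the forms
  have hkd : ∀ i, ∃ kd : R932.PO.Kind, R932.PO.Fits kd (J i) ∧
      R932.PO.Allows kd (N i) ℓ₀ (R932.PO.JL J ℓ₀ i) := by
    intro i
    rcases (hJ i).2 with ⟨h1, h2⟩ | ⟨h1, h2, h3, -⟩
    · exact ⟨.sym, ⟨h1, h2⟩, (hℓ₀ i).1 h1⟩
    · rcases Nat.even_or_odd (N i) with he | ho
      · have h4 := (hℓ₀ i).2.2 h1 he
        refine ⟨.even, ⟨h1, he, ?_⟩, h4.1, ?_⟩
        · obtain ⟨m, hm⟩ := he
          omega
        · have h5 : (R932.PO.JL J ℓ₀ i).det = (((J i).det : ℚ) : ℚ_[ℓ₀]) := by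
            show ((J i).map (algebraMap ℚ ℚ_[ℓ₀])).det = _
            rw [← eq_ratCast (algebraMap ℚ ℚ_[ℓ₀]), RingHom.map_det]
            rfl
          show Even (Padic.valuation (R932.PO.JL J ℓ₀ i).det)
          rw [h5, Padic.valuation_ratCast]
          exact h4.2
      · exact ⟨.odd, ⟨h1, ho, h2⟩, (hℓ₀ i).2.1 h1 ho⟩
  choose kd hfit hal using hkd
  have hwJ : ∀ i, (J i)ᵀ = J i → w i = 0 := by
    intro i hi
    rcases (hJ i).2 with ⟨h1, h2⟩ | ⟨-, -, -, h3⟩
    · exfalso
      apply (hJ i).1
      have h3 : J i = 0 := by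
        have h4 : J i = -J i := hi.symm.trans h1
        ext p q
        have h5 : J i p q = -J i p q := congrFun (congrFun h4 p) q
        rw [Matrix.zero_apply]
        linarith
      have : Nonempty (Fin (N i)) := ⟨⟨0, h2⟩⟩
      rw [h3]
      exact det_zero
    · exact h3
  obtain ⟨U, hU, hUα⟩ := hα
  obtain ⟨hG1, hG2, hG3⟩ := hG
  -- the two forms of the conjecture
  have hiff : ∀ {Γ' : Type} [Group Γ'] (ℓ : ℕ) [Fact ℓ.Prime]
      (r : ∀ i, Γ' →* Matrix (Fin (N i)) (Fin (N i)) ℚ_[ℓ]) (β : Γ' →* Matrix (Fin m) (Fin m) ℚ),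
      MotivicTateConjecture G r β ↔ R932.GR.MTateA G r β := by
    intro Γ' _ ℓ _ r β
    refine forall_congr' fun x => forall_congr' fun a => forall_congr' fun hx =>
      forall_congr' fun ha => iff_congr ?_ ?_
    · refine forall_congr' fun f => ?_
      have h1 : ∀ (y : ∀ i, Matrix (Fin (N i)) (Fin (N i)) (AlgebraicClosure ℚ_[ℓ]))
          (b : Matrix (Fin m) (Fin m) (AlgebraicClosure ℚ_[ℓ])),
          value f y b = R932.GR.eva y b f := by
        intro y b
        show MvPolynomial.aeval _ f = MvPolynomial.eval _ f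
        rw [MvPolynomial.aeval_def]
        rfl
      rw [h1]
      refine imp_congr (forall_congr' fun σ => ?_) Iff.rfl
      rw [h1]
      rfl
    · exact ⟨fun h f hf => h.2.2 f hf, fun h => ⟨hx, ha, fun f hf => h f hf⟩⟩
  have hmain := R932.GR.mtateA_main (K := K) (P := P) (kd := kd) (w := w) hS hs J hfit
    (fun i => (hJ i).1) hwJ α hU hUα κ (fun ℓ _ v hv hvℓ σ hσ => hκ ℓ v hv hvℓ σ hσ) ρ
    (fun i ℓ _ => (hρ i ℓ).1) (fun i ℓ _ g => (hρ i ℓ).2.1 g)
    (fun i ℓ _ v hv hvℓ σ hσ => (hρ i ℓ).2.2 v hv hvℓ σ hσ) G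
    (fun x a hx ha h => hG1 x a ⟨hx, ha, fun f hf => h f hf⟩)
    (fun x hx hxd f hf => (hG2 x hx hxd).2.2 f hf)
    (fun ℓ _ σ f hf => (hG3 ℓ σ).2.2 f hf) ℓ₀ hal ((hiff ℓ₀ _ _).1 hone)
  constructor
  · refine Y142.ZI.DensityZero.mono hmain.1 ?_
    rintro ℓ ⟨hp, hno⟩
    exact ⟨hp, fun h => hno ((hiff ℓ _ _).2 h)⟩
  · intro ℓ _ hss hsc
    exact (hiff ℓ _ _).2 (hmain.2 ℓ hss hsc)

end

end Pool.Agent.Results.MP_bbcdf5_ag.OnePrimeSuffices
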