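import Pool.Agent.R918.Ell3

set_option autoImplicit false

/-!
# The motivic Tate conjecture for motives of spin type

Let `k` be a finitely generated field of characteristic zero and let `M i` be finitely many motives over
`k` (of André, or for absolute Hodge cycles), pure of the same weight `w`; let `V i = ℚ_ℓ ^ (n i)` be
their `ℓ`-adic realizations, with the actions `ρ i` of the Galois group `Γ` of `k`, and let `M` be the
direct sum of the `M i`. Let `𝔤` be the Lie algebra of the `ℓ`-adic motivic Galois group of `M`; it acts on
the sum of the `V i`. It is reductive, it is determined by the tensors which it kills, and these are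
Tate tensors, since motivated classes are Tate classes (these properties are collected in `IsMotivic`).

The motivic Tate conjecture for `M`, up to finite groups (equivalently, the motivic Mumford-Tate
conjecture, which is equivalent to the motivic Tate conjecture, see the problem), says that the
representation of `Γ` is semisimple, and that the Tate tensors (in any number of variables, in `V` and
its dual space, fixed by a subgroup of finite index of `Γ`) are exactly the tensors killed by `𝔤`;
equivalently, the identity component of the `ℓ`-adic monodromy group is the identity component of the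
motivic Galois group (`AllTate`).

Suppose that `M` is of spin type (`SpinType`): over the complex numbers (for one embedding
`ℚ_ℓ → ℂ`), the realization of `M` is a representation of the Clifford algebra with generators `E_1`,
…, `E_N` which have `k` different colours, every colour `σ` occurs `r_σ ≥ 6` times, and `𝔤` is the
sum of the orthogonal Lie algebras `so(r_σ)`, spanned by the products `E_i E_j` of two different
generators of the same colour, and of the scalars if `w ≠ 0`. So the realization is a sum of tensor
products of spin representations.

**Theorem.**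

* The conjecture holds for such a motive `M` (and so for all motives in the tensor category generated by
  `M`) if and only if the realization of `M` is semisimple and the Tate conjecture (with motivated
  cycles) holds for the endomorphisms of `M` (`EndTate`: the endomorphisms which commute with a
  subgroup of finite index of `Γ` commute with `𝔤`).
* It holds if (`GoodPolys`) for one element `γ` of `Γ` the characteristic polynomials on the `V i` are
  irreducible over `ℚ_ℓ` and different, and the product of these polynomials has no multiple roots and
  no quotients of two roots which are roots of unity, different from `1`, and if for each `i` an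
  element of `Γ` has a characteristic polynomial on `V i` without multiple roots and without such
  quotients, with one root in `ℚ_ℓ`.

So all the Tate classes on all the powers are reduced to those on `M ⊗ M^∨`, or to conditions on
Frobenius polynomials: no information about inertia groups or about Hodge-Tate weights is needed. (For
`w ≠ 0` the existence of one Frobenius element which acts purely of weight `w` is used, in order to see
the scalars.)

For the motives `h^1(A)` of abelian varieties the two conditions in the first part are the theorem of
Faltings. Examples are the Kuga-Satake varieties of K3 surfaces, cubic fourfolds, hyperkähler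
varieties, with totally real multiplication by a field of degree `k` (after a restriction of scalars:
the colours are the embeddings of the field; the realization of the norm of the Kuga-Satake
construction), where the conjecture is known (Tankeev, André, Pink, Vasiu). The theorem is about motives of
arbitrary weight with these Galois groups, for which the semisimplicity is not known, and the proof is
uniform. Motives of other weights with such Galois groups occur for instance in the generalized
Kuga-Satake theory of Patrikis.

## Proof

Let `L` be the Lie algebra of the endomorphisms of `V` which kill all Tate tensors. It is contained in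
`𝔤`. By the theorem on bicommutants and the condition on the endomorphisms, `L` generates the same
associative algebra as `𝔤`, and for `w ≠ 0` it contains the scalars (since one element of `Γ` acts
purely of weight `w`). So the intersection `𝔥` of `L ⊗ ℂ` with the semisimple part `𝔰` of `𝔤 ⊗ ℂ`
generates an algebra which contains `𝔰`. Then `𝔥 = 𝔰` (`Pool.Agent.Y102.SP.main_col`, proved for
de Rham-Betti classes in the starting library, without the classification of semisimple Lie algebras
and of their irreducible subalgebras). The second part follows from the lemmas on strong irreducibility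
in `Pool/Agent/Y114/TF`.
-/

open Module TensorProduct

noncomputable section

namespace Pool.Agent.Results.MP_bbcdf5_ag.SpinMotives

open Pool.Agent.Y114.TF Pool.Agent.Y114.RM Pool.Agent.H204R3.GP Pool.Agent.R913.Adj

/-! ### Representations and the motivic Lie algebra -/

section tate

variable {k V Γ : Type} [Field k] [AddCommGroup V] [Module k V] [Group Γ]
  (ρ : Representation k Γ V) (𝔤 : Submodule k (End k V))

/-- The representation is semisimple under all subgroups of finite index, and the Tate tensors are the
tensors killed by `𝔤`. -/
def IsFull : Prop :=
  FiniteIndexSemisimple ρ ∧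
    ∀ (m : ℕ) (φ : Tensor k V m), TateTensor ρ φ ↔ ∀ X ∈ 𝔤, KillsTensor X φ

/-- An endomorphism which commutes with a subgroup of finite index of `Γ` commutes with `𝔤`. -/
def IsEndTate : Prop :=
  ∀ P : End k V, (∃ Δ : Subgroup Γ, Δ.FiniteIndex ∧ ∀ γ ∈ Δ, P * ρ γ = ρ γ * P) →
    ∀ X ∈ 𝔤, X * P = P * X

end tate

section props

variable (Γ : Type) [Group Γ] {ι : Type} (n : ι → ℕ) (ℓ : ℕ) [Fact ℓ.Prime]

/-- Representations of `Γ` on the spaces `ℚ_ℓ ^ (n i)`. -/
abbrev Reps : Type := ∀ i, Representation ℚ_[ℓ] Γ (Fin (n i) → ℚ_[ℓ])

/-- Spaces of endomorphisms of the direct sum of the spaces `ℚ_ℓ ^ (n i)`. -/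
abbrev EndSpace : Type := Submodule ℚ_[ℓ] (End ℚ_[ℓ] (∀ i, Fin (n i) → ℚ_[ℓ]))

variable {Γ n ℓ} (ρ : Reps Γ n ℓ) (𝔤 : EndSpace n ℓ)

/-- The representations are continuous. -/
def Conts [TopologicalSpace Γ] : Prop := ∀ i, Continuous fun g => LinearMap.toMatrix' (ρ i g)

/-- Some element of `Γ` acts purely of the weight `w` on all the representations: its characteristic
polynomials are rational, with all roots of absolute value `q ^ (w / 2)` for some `q > 1`. -/
def Pure (w : ℤ) : Prop := ∃ γ : Γ, ActsPurely ρ (fun _ => w) γ

variable [Fintype ι] [DecidableEq ι]

/-- `𝔤` has the properties of the Lie algebra of the motivic Galois group (see `IsMotivic`). -/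
def Motivic : Prop := IsMotivic ρ 𝔤

/-- The direct sum is semisimple as a representation of every subgroup of finite index. -/
def Semisimple : Prop := FiniteIndexSemisimple (sumRep ρ)

/-- The conjecture for the direct sum (see `IsFull`). -/
def AllTate : Prop := IsFull (sumRep ρ) 𝔤

/-- The Tate conjecture for the endomorphisms of the direct sum (see `IsEndTate`). -/
def EndTate : Prop := IsEndTate (sumRep ρ) 𝔤

end props

/-! ### Polynomials -/

/-- `f` has `deg f` different roots in an extension field, and no quotient of two different roots is a
root of unity. -/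
def NeatPoly {k : Type} [Field k] (f : Polynomial k) : Prop :=
  ∃ (Ω : Type) (_ : Field Ω) (_ : Algebra k Ω) (s : Finset Ω),
    (∀ a ∈ s, Polynomial.aeval a f = 0) ∧ s.card = f.natDegree ∧
    ∀ N : ℕ, 0 < N → ∀ a ∈ s, ∀ b ∈ s, a ^ N = b ^ N → a = b

/-- One element of `Γ` acts on the representations with different irreducible characteristic
polynomials whose product is a `NeatPoly`; and for every `i` some element acts on the `i`-th
representation with a `NeatPoly` with a root in the field. -/
def GoodPolys {k : Type} [Field k] {ι : Type} [Fintype ι] {V : ι → Type}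
    [∀ i, AddCommGroup (V i)] [∀ i, Module k (V i)] [∀ i, FiniteDimensional k (V i)] {Γ : Type}
    [Group Γ] (ρ : ∀ i, Representation k Γ (V i)) : Prop :=
  (∃ γ : Γ, (∀ i, Irreducible (ρ i γ).charpoly) ∧
    (∀ i j, i ≠ j → (ρ i γ).charpoly ≠ (ρ j γ).charpoly) ∧ NeatPoly (∏ i, (ρ i γ).charpoly)) ∧
  ∀ i, ∃ γ : Γ, NeatPoly (ρ i γ).charpoly ∧ ∃ β, (ρ i γ).charpoly.IsRoot β

/-! ### The spin type -/

section types

/-- The scalars if the weight `w` is not zero, and nothing if it is zero. -/
def scalars (H : Type) [AddCommGroup H] [Module ℂ H] (w : ℤ) : Submodule ℂ (End ℂ H) :=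
  if w = 0 then ⊥ else Submodule.span ℂ {1}

/-- **Spin type.** The complex vector space `H` is a representation of a Clifford algebra with `N`
generators of `k` colours, where every colour which occurs has at least six generators, and the Lie
algebra `𝔩` is the sum of the orthogonal Lie algebras of the colours (spanned by the products of two
different generators of the same colour), and of the scalars if the weight `w` is not zero. -/
def IsSpin {H : Type} [AddCommGroup H] [Module ℂ H] (𝔩 : Submodule ℂ (End ℂ H)) (w : ℤ) : Prop :=
  ∃ (N k : ℕ) (E : Fin N → End ℂ H) (c : Fin N → Fin k),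
    (∀ i, E i * E i = 1) ∧ (∀ i j, i ≠ j → E i * E j = -(E j * E i)) ∧
    (∀ i, 6 ≤ (Finset.univ.filter fun j => c j = c i).card) ∧
    𝔩 = Submodule.span ℂ {Y | ∃ i j, i ≠ j ∧ c i = c j ∧ Y = E i * E j} ⊔ scalars H w

variable {ι : Type} {n : ι → ℕ} {ℓ : ℕ} [Fact ℓ.Prime] [Algebra ℚ_[ℓ] ℂ]

/-- The complexification of the direct sum of the `ℚ_ℓ ^ (n i)`. -/
abbrev VC (n : ι → ℕ) (ℓ : ℕ) [Fact ℓ.Prime] [Algebra ℚ_[ℓ] ℂ] : Type :=
  ℂ ⊗[ℚ_[ℓ]] (∀ i, Fin (n i) → ℚ_[ℓ])

/-- The complexification `𝔤 ⊗ ℂ`, which acts on the complexification of the direct sum. -/
def lieC (𝔤 : EndSpace n ℓ) : Submodule ℂ (End ℂ (VC n ℓ)) :=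
  Submodule.span ℂ {Y | ∃ X ∈ 𝔤, Y = X.baseChange ℂ}

/-- The motivic Lie algebra is of spin type, over the complex numbers. -/
def SpinType (w : ℤ) (𝔤 : EndSpace n ℓ) : Prop := IsSpin (lieC 𝔤) w

end types

/-- **Theorem.** Let `M` be a direct sum of motives of weight `w`, of spin type. The motivic Tate
conjecture holds for `M` (up to finite groups) if and only if the realization of `M` is semisimple and
the Tate conjecture holds for the endomorphisms of `M`. It holds if the conditions `GoodPolys` on
characteristic polynomials are satisfied. -/
theorem result {Γ : Type} [Group Γ] [TopologicalSpace Γ] [IsTopologicalGroup Γ] [CompactSpace Γ]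
    {ι : Type} [Fintype ι] [DecidableEq ι] {n : ι → ℕ} {ℓ : ℕ} [Fact ℓ.Prime] [Algebra ℚ_[ℓ] ℂ]
    (ρ : Reps Γ n ℓ) (hρ : Conts ρ) (w : ℤ) (hw : w ≠ 0 → Pure ρ w)
    (𝔤 : EndSpace n ℓ) (h𝔤 : Motivic ρ 𝔤) (ht : SpinType w 𝔤) :
    (AllTate ρ 𝔤 ↔ Semisimple ρ ∧ EndTate ρ 𝔤) ∧ (GoodPolys ρ → AllTate ρ 𝔤) := by
  have key : Semisimple ρ ∧ EndTate ρ 𝔤 → AllTate ρ 𝔤 := by
    rintro ⟨hss, hE⟩
    obtain ⟨N, k, E, c, h1, h2, h3, hl⟩ := ht
    refine ⟨hss, Pool.Agent.R918.Ell.tate_of_rig ρ hρ h𝔤 hss hE
      (Pool.Agent.R918.Ell.rig_spin ⟨h1, h2⟩ h3) w hw ?_⟩
    refine Eq.trans ?_ hl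
    unfold bcS lieC
    congr 1
    ext Y
    constructor
    · rintro ⟨X, hX, rfl⟩
      exact ⟨X, hX, rfl⟩
    · rintro ⟨X, hX, rfl⟩
      exact ⟨X, hX, rfl⟩
  refine ⟨⟨?_, key⟩, fun h => key ?_⟩
  · rintro ⟨hss, h⟩
    exact ⟨hss, Pool.Agent.R918.Ell.endTate_of_tate (sumRep ρ) h⟩
  · exact Pool.Agent.R918.Ell.of_goodPolys ρ (IsMotivic.parts h𝔤) h

end Pool.Agent.Results.MP_bbcdf5_ag.SpinMotives
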