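import Mathlib
import Pool.Agent.R696.MS.Over
import Pool.Agent.Results.MP_de8692_ag.SumsWithAnyMotive

/-!
# The motivic Tate conjecture for the sum of `h ^ 1` of an abelian variety and an arbitrary motive, with full
motivic Galois groups

Let `A` be an abelian variety over a field `k` which is finitely generated over `ℚ`, `ℓ` a prime number,
`V = V_ℓ(A)` the rational Tate module, `χ` the cyclotomic character and `ω` the Weil pairing of a polarization.
By Faltings `V` is semisimple, also over finite extensions of `k` (`IsTateModule`). Suppose that `A` is good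
(`IsGood`, see `Pool/Agent/Results/MP_de8692_ag/SumsWithAnyMotive.lean`): every strongly irreducible subspace `U`
of `V`, with coefficients extended to the algebraic closure of `ℚ_ℓ`, is symplectic, and for each `U` there is
one place (which may depend on `U`) at which a slope is simple on `U`, or an outer slope occurs on `U` if the
dimension of `U` is at most four, or the reduction is semistable of toric rank one on `U`; or the dimensions of
the subspaces `U` are four or two modulo four and the Frobenius elements with two slopes are dense.

Let `M` be ANY motive over `k` (for absolute Hodge cycles, or in the sense of André), with `ℓ`-adic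
realization `W`. Suppose that the Galois action on `W` is potentially abelian, or, much more generally, that
for every piece `U` every subgroup of finite index contains an element which acts trivially on `W`, with
`χ = 1`, and which acts nontrivially on `U` (`KernelActs`; for instance an element of an inertia
group at a place where `M` has potentially good reduction).

Let `H` be the group of the `ℚ_ℓ`-points of the motivic Galois group `𝒢_k(h ^ 1(A) ⊕ M)`, with its actions `R`
on `V` and `T` on `W` and the character `ν` on the Tate motive; let `H₀` be its identity component and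
`i : Γ → H` the homomorphism from the Galois group of `k`. By the theorem of Faltings the Tate classes of degree
two on `A × A` are divisor classes, which are fixed by `H₀` (hypothesis `hdegree`). Let `Δ` be a subgroup of finite
index of `Γ`, `k'` its fixed field. The motivic Galois group over `k'` has the same identity component, and the
Galois group of `k'` maps onto the group of its components (since motives with finite motivic Galois groups
are Artin motives): it is the union of the components `i(g) H₀`, `g ∈ Δ` (`Belongs`).

The motivic Tate conjecture over `k'` says that the `ℓ`-adic monodromy group over `k'` is equal to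
the motivic Galois group over `k'`. As both groups are reductive (and `W ⊕ W'` may be taken for `W`, where `W'` is the
dual space), it says that all tensors on which `Δ` acts by a power `χ ^ j` are multiplied by `ν ^ j` under
the motivic Galois group over `k'` (`TateOver`).

**Theorem.** (1) The motivic Tate conjecture for `h ^ 1(A) ⊕ M` (and so for all motives in the tannakian
category generated by `h ^ 1(A)` and `M`) over all finite extensions `k'` of `k` is equivalent to the motivic Tate
conjecture for `M` over all finite extensions.
(2) If it is true for `M` over all finite extensions and the Galois group of `k` maps onto the components of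
`H`, then the tensors of `h ^ 1(A) ⊕ M` on which `Γ` acts by `χ ^ j` are exactly those on which the full motivic
Galois group acts by `ν ^ j`, over `k` itself.

So the equality holds for the full groups, with their components. For instance it is true for `A × B` for all abelian
varieties `B` with complex multiplication.
-/

namespace Pool.Agent.Results.MP_bbcdf5_ag.SumsWithAnyMotive

open Module Pool.Agent.R930 Pool.Agent.TH776.FM Pool.Agent.H204R3.GP Pool.Agent.Y126.Notions
  Pool.Agent.R930.Notions
open Pool.Agent.Results.MP_021685_ag.ProductsOverNumberFields (KernelActs PotentiallyAbelian)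
open Pool.Agent.Results.MP_de8692_ag.SumsWithAnyMotive (IsGood ContinuousIntegral)
open Pool.Agent.R696.MS (Belongs TateOver tateOver_iff)

/-- **The motivic Tate conjecture for `h ^ 1(A) ⊕ M`, with full groups.** -/
theorem result (ℓ : ℕ) [Fact ℓ.Prime] {V Γ : Type} [AddCommGroup V] [Module ℚ_[ℓ] V]
    [FiniteDimensional ℚ_[ℓ] V] [Group Γ] [TopologicalSpace Γ] [IsTopologicalGroup Γ]
    {W : Type} [AddCommGroup W] [Module ℚ_[ℓ] W] [FiniteDimensional ℚ_[ℓ] W]
    -- the motivic Galois group, its identity component, its actions and the character
    {H : Type} [Group H] (i : Γ →* H) (H₀ : Subgroup H) (R : Representation ℚ_[ℓ] H V)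
    (T : Representation ℚ_[ℓ] H W) (ν : H →* ℚ_[ℓ])
    -- the abelian variety
    (ω : V →ₗ[ℚ_[ℓ]] V →ₗ[ℚ_[ℓ]] ℚ_[ℓ]) (hA : IsTateModule (R.comp i) (ν.comp i) ω)
    (hcontinuous : ContinuousIntegral (R.comp i)) (hgood : IsGood (R.comp i) (ν.comp i))
    (hdegree : ∀ B : V →ₗ[ℚ_[ℓ]] V →ₗ[ℚ_[ℓ]] ℚ_[ℓ], IsTate2 (R.comp i) (ν.comp i) B →
      ∀ h ∈ H₀, ∀ u v, B (R h u) (R h v) = ν h * B u v)
    -- the motive `M`
    (hW : PotentiallyAbelian (T.comp i) ∨
      KernelActs (extend (AlgebraicClosure ℚ_[ℓ]) (R.comp i))
      ((algebraMap ℚ_[ℓ] (AlgebraicClosure ℚ_[ℓ]) : ℚ_[ℓ] →* _).comp (ν.comp i)) (T.comp i)) :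
    ((∀ Δ : Subgroup Γ, Δ.FiniteIndex → TateOver i H₀ (R.prod T) ν Δ) ↔
      ∀ Δ : Subgroup Γ, Δ.FiniteIndex → TateOver i H₀ T ν Δ) ∧
    ((∀ h : H, ∃ g : Γ, (i g)⁻¹ * h ∈ H₀) →
      (∀ Δ : Subgroup Γ, Δ.FiniteIndex → TateOver i H₀ T ν Δ) →
      ∀ (s : ℕ) (j : ℤ) (φ : MultilinearMap ℚ_[ℓ] (fun _ : Fin s => V × W) ℚ_[ℓ]),
        (∀ (g : Γ) (v : Fin s → V × W),
          φ (fun l => (R.prod T) (i g) (v l)) = ν (i g) ^ j * φ v) ↔
        ∀ (h : H) (v : Fin s → V × W), φ (fun l => (R.prod T) h (v l)) = ν h ^ j * φ v) := by
  have key : (∀ Δ : Subgroup Γ, Δ.FiniteIndex → TateOver i H₀ (R.prod T) ν Δ) ↔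
      ∀ Δ : Subgroup Γ, Δ.FiniteIndex → TateOver i H₀ T ν Δ := by
    rw [tateOver_iff, tateOver_iff]
    exact Pool.Agent.Results.MP_de8692_ag.SumsWithAnyMotive.result ℓ (R.comp i) (ν.comp i) ω hA
      hcontinuous hgood (T.comp i) hW (R.comp H₀.subtype) (T.comp H₀.subtype) (ν.comp H₀.subtype)
      (fun B hB h u v => hdegree B hB h.1 h.2 u v)
  refine ⟨key, fun hπ hM s j φ => ⟨fun hφ h v => ?_, fun h g v => h (i g) v⟩⟩
  have h1 := key.2 hM ⊤ inferInstance s j φ (fun g _ v => hφ g v)
  obtain ⟨g, hg⟩ := hπ h
  exact h1 h ⟨g, Subgroup.mem_top g, hg⟩ v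

end Pool.Agent.Results.MP_bbcdf5_ag.SumsWithAnyMotive
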